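import Pool.Agent.helper81.CI.Spec

set_option autoImplicit false

open MeasureTheory Set Filter Topology
open scoped ENNReal
open Pool.Agent.helper81.CW Pool.Agent.CL

noncomputable section

namespace Pool.Agent.CI

lemma MFI_real (m d : ℕ) (hm : 1 ≤ m) :
    √((m : ℝ) / ((m : ℝ) + 1)) ^ (m * d) * √(1 / ((m : ℝ) + 1)) ^ d * (1 / √(m : ℝ) ^ (m * d)) =
      1 / √(((m + 1 : ℕ) : ℝ)) ^ ((m + 1) * d) := by
  have hm0 : (0 : ℝ) < m := by exact_mod_cast hm
  have h1 : √((m : ℝ) / ((m : ℝ) + 1)) = √(m : ℝ) / √((m : ℝ) + 1) := Real.sqrt_div hm0.le _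
  have h2 : √(1 / ((m : ℝ) + 1)) = 1 / √((m : ℝ) + 1) := by
    rw [Real.sqrt_div zero_le_one, Real.sqrt_one]
  have h3 : (((m + 1 : ℕ) : ℝ)) = (m : ℝ) + 1 := by push_cast; ring
  have hs : √(m : ℝ) ≠ 0 := (Real.sqrt_pos.2 hm0).ne'
  have hs1 : √((m : ℝ) + 1) ≠ 0 := (Real.sqrt_pos.2 (by positivity)).ne'
  rw [h1, h2, h3, div_pow, div_pow, one_pow, add_mul, one_mul, pow_add]
  field_simp

theorem MFI (hPRI : PRI_stmt) : MFI_stmt := by
  intro d C t hC ht m hm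
  induction m, hm using Nat.le_induction with
  | base =>
    intro n hn
    obtain rfl : n = d := by omega
    refine ⟨C, hC, ?_, ?_⟩
    · rw [Nat.cast_one, Real.sqrt_one, one_pow, div_one, ENNReal.ofReal_one, one_mul, pow_one]
    · have h1 : (((1 : ℕ) : ℝ)) * t = t := by push_cast; ring
      rw [h1, Nat.cast_one, Real.sqrt_one, one_pow, div_one, ENNReal.ofReal_one, one_mul, pow_one]
  | succ m hm ih =>
    intro n hn
    obtain rfl : n = m * d + d := by rw [hn]; ring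
    obtain ⟨C1, hC1, hV1, hI1⟩ := ih (m * d) rfl
    have hm0 : (0 : ℝ) < m := by exact_mod_cast hm
    have hm1 : (0 : ℝ) < (m : ℝ) + 1 := by positivity
    obtain ⟨C', hC', hV, hI⟩ := hPRI (m * d) d C1 C ((m : ℝ) / ((m : ℝ) + 1)) (1 / ((m : ℝ) + 1)) hC1 hC
      (by positivity) (by positivity) (by field_simp)
    refine ⟨C', hC', ?_, ?_⟩
    · calc ENNReal.ofReal (1 / √(((m + 1 : ℕ) : ℝ)) ^ ((m + 1) * d)) * volume C ^ (m + 1)
          = (ENNReal.ofReal (√((m : ℝ) / ((m : ℝ) + 1)) ^ (m * d) * √(1 / ((m : ℝ) + 1)) ^ d) *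
            ENNReal.ofReal (1 / √(m : ℝ) ^ (m * d))) * volume C ^ (m + 1) := by
            rw [← ENNReal.ofReal_mul (by positivity), MFI_real m d hm]
        _ = ENNReal.ofReal (√((m : ℝ) / ((m : ℝ) + 1)) ^ (m * d) * √(1 / ((m : ℝ) + 1)) ^ d) *
            ((ENNReal.ofReal (1 / √(m : ℝ) ^ (m * d)) * volume C ^ m) * volume C) := by
            rw [pow_succ]; ring
        _ ≤ ENNReal.ofReal (√((m : ℝ) / ((m : ℝ) + 1)) ^ (m * d) * √(1 / ((m : ℝ) + 1)) ^ d) *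
            (volume C1 * volume C) := by gcongr
        _ ≤ volume C' := hV
    · have hT : (((m + 1 : ℕ) : ℝ)) * t = ((m : ℝ) + 1) * t := by push_cast; ring
      have h2 := hI (((m : ℝ) + 1) * t) (by positivity)
      have e1 : ((m : ℝ) + 1) * t * ((m : ℝ) / ((m : ℝ) + 1)) = m * t := by field_simp
      have e2 : ((m : ℝ) + 1) * t * (1 / ((m : ℝ) + 1)) = t := by field_simp
      rw [e1, e2] at h2
      rw [hT]
      calc SZ C' (((m : ℝ) + 1) * t)
          ≤ ENNReal.ofReal (√((m : ℝ) / ((m : ℝ) + 1)) ^ (m * d) * √(1 / ((m : ℝ) + 1)) ^ d) *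
              (SZ C1 (m * t) * SZ C t) := h2
        _ ≤ ENNReal.ofReal (√((m : ℝ) / ((m : ℝ) + 1)) ^ (m * d) * √(1 / ((m : ℝ) + 1)) ^ d) *
              ((ENNReal.ofReal (1 / √(m : ℝ) ^ (m * d)) * SZ C t ^ m) * SZ C t) := by gcongr
        _ = (ENNReal.ofReal (√((m : ℝ) / ((m : ℝ) + 1)) ^ (m * d) * √(1 / ((m : ℝ) + 1)) ^ d) *
              ENNReal.ofReal (1 / √(m : ℝ) ^ (m * d))) * SZ C t ^ (m + 1) := by
            rw [pow_succ]; ring
        _ = ENNReal.ofReal (1 / √(((m + 1 : ℕ) : ℝ)) ^ ((m + 1) * d)) * SZ C t ^ (m + 1) := by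
            rw [← ENNReal.ofReal_mul (by positivity), MFI_real m d hm]

end Pool.Agent.CI
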